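import Pool.Agent.H58.TA.Rings
import Pool.Agent.H12.Inst.EVC2

set_option autoImplicit false

/-! MP_2e6055, module F5 (helper12): RINGS7.  A black ring in `A(v; 2R, 4R-1)` and a white ring in
`A(v; 4R, 8R)` (colours off `U` are free): up to the first visit of the end box all revealed faces of `U`
are in `Bx v (8 R)`. -/

namespace Pool.Agent.H12.F5

open Pool.Agent.H7.UC
open Pool.Agent.H74.Tri (Pos pl pr ph pe pb Bi stp orb IsTip St Rev Jn)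
open Pool.Agent.H75.Lv (mixc Ins Ask First Bx mem_Bx)
open Pool.Agent.H52.Tri (AX inA)
open Pool.Agent.H12.Inst (ask_of_rev Bx_conn)

theorem mem_nat {v f : Fc} {m : ℕ} : f ∈ Pool.Agent.H58.TA.Bx v m ↔ f ∈ Bx v (m : ℤ) := by
  rw [Pool.Agent.H58.TA.mem_Bx, mem_Bx, abs_le, abs_le]
  constructor
  · rintro ⟨h1, h2⟩
    omega
  · rintro ⟨h1, h2⟩
    omega

/-- general form, natural radii `a0 < a ≤ b < c ≤ d` -/
theorem rings_rev {U : Finset Fc} {ω : Fc → Bool} {p : Pos} {v : Fc} {S : Finset Fc} {a0 a b c d : ℕ}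
    (hU : St U ω) (hp : IsTip U ω p) (ha0 : a0 < a) (hab : a ≤ b) (hbc : b < c) (hcd : c ≤ d)
    (hB : AX v a b (fun z => z ∈ U → ω z = true)) (hW : AX v c d (fun z => z ∈ U → ω z = false))
    (hv : Bx v (a0 : ℤ) ⊆ U) (hph : ph p ∈ Bx v (a0 : ℤ)) (hS : S ⊆ Bx v (a0 : ℤ)) {i : ℕ}
    (hI : Ins U ω p i) (hA : ∃ g ∈ S, Ask U ω p i g) :
    ∀ f ∈ U, f ∈ Rev ω p i → f ∈ Bx v (d : ℤ) := by
  intro f hf hr
  by_contra hfd
  obtain ⟨k, hk, hkA⟩ := ask_of_rev hp hI hf hr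
  obtain ⟨g, hgS, hgA⟩ := hA
  have hset : ∀ x, x ∈ Bx v (a0 : ℤ) → Jn {x | x ∈ U ∧ x ∈ Pool.Agent.H58.TA.Bx v a0} v x := by
    intro x hx
    refine (Bx_conn v (a0 : ℤ) x hx).mono ?_
    intro y hy
    have hy' : y ∈ Bx v (a0 : ℤ) := by exact_mod_cast hy
    exact ⟨hv hy', mem_nat.2 hy'⟩
  have hvv : v ∈ Bx v (a0 : ℤ) := by
    rw [mem_Bx, sub_self, sub_self, abs_zero]
    omega
  exact Pool.Agent.H58.TA.rings (c0 := v) (a0 := a0) (a := a) (b := b) (c := c) (d := d) hU hp ha0 hab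
    hbc hcd hB hW (hv hvv) (mem_nat.2 hvv) (hset _ hph) hk hkA (fun h => hfd (mem_nat.1 h)) hgA
    (hset g (hS hgS))

/-- **RINGS7** -/
theorem rings7 {U : Finset Fc} {ω : Fc → Bool} {p : Pos} {v z0 : Fc} {R e : ℤ} (hU : St U ω)
    (hp : IsTip U ω p) (hR : 1 ≤ R) (hB : AX v (2 * R).toNat (4 * R - 1).toNat (fun z => z ∈ U → ω z = true))
    (hW : AX v (4 * R).toNat (8 * R).toNat (fun z => z ∈ U → ω z = false))
    (hv : Bx v R ⊆ U) (hph : ph p ∈ Bx v R) (hE : Bx z0 e ⊆ Bx v R) {i : ℕ}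
    (hF : First U ω p (Bx z0 e) i) : ∀ f ∈ U, f ∈ Rev ω p i → f ∈ Bx v (8 * R) := by
  have e0 : ((R.toNat : ℕ) : ℤ) = R := Int.toNat_of_nonneg (by omega)
  have e1 : (((8 * R).toNat : ℕ) : ℤ) = 8 * R := Int.toNat_of_nonneg (by omega)
  obtain ⟨g, hg, hgA⟩ := hF.1
  have := rings_rev (a0 := R.toNat) (a := (2 * R).toNat) (b := (4 * R - 1).toNat) (c := (4 * R).toNat)
    (d := (8 * R).toNat) (S := Bx z0 e) (i := i) hU hp (by omega) (by omega) (by omega) (by omega) hB hW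
    (by rw [e0]; exact hv) (by rw [e0]; exact hph) (by rw [e0]; exact hE) hgA.1 ⟨g, hg, hgA⟩
  rw [e1] at this
  exact this

end Pool.Agent.H12.F5
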